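import Pool.Agent.H24.SF.Core
set_option autoImplicit false

/-! Colourings without monochromatic progressions with differences in a given set. -/

namespace H24.SF

open Finset Pool.Agent.H617R3.AP

/-- the least number of colours for which the numbers `1, ..., m` can be coloured without
monochromatic progressions of length `k` -/
noncomputable def chi (k m : ℕ) : ℕ :=
  sInf {c | ∃ f : ℕ → ℕ, (∀ n, f n < c) ∧
    ∀ a d : ℕ, 1 ≤ a → 1 ≤ d → a + (k - 1) * d ≤ m → ¬ ∀ i < k, f (a + i * d) = f a}

theorem chi_spec {k : ℕ} (hk : 2 ≤ k) (m : ℕ) : ∃ f : ℕ → ℕ, (∀ n, f n < chi k m) ∧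
    ∀ a d : ℕ, 1 ≤ a → 1 ≤ d → a + (k - 1) * d ≤ m → ¬ ∀ i < k, f (a + i * d) = f a := by
  have hne : {c | ∃ f : ℕ → ℕ, (∀ n, f n < c) ∧
    ∀ a d : ℕ, 1 ≤ a → 1 ≤ d → a + (k - 1) * d ≤ m → ¬ ∀ i < k, f (a + i * d) = f a}.Nonempty := by
    refine ⟨m + 1, fun n => min n m, fun n => ?_, ?_⟩
    · show min n m < m + 1
      omega
    intro a d ha hd had h
    have h1 := h 1 (by omega)
    have h2 : 1 * d ≤ (k - 1) * d := Nat.mul_le_mul_right _ (by omega)
    simp only [one_mul] at h1 h2
    omega
  exact Nat.sInf_mem hne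

/-- a dilation which moves all elements of a finite set of integers out of a small interval -/
theorem exists_dilation (D : Finset ℤ) (hD : (0 : ℤ) ∉ D) {p L : ℕ} [Fact p.Prime]
    (hp : ∀ d ∈ D, d.natAbs < p) (hL : D.card * (2 * L) < p) :
    ∃ l : ZMod p, ∀ d ∈ D, l * (d : ZMod p) ∉ I p L := by
  classical
  by_contra hcon
  push Not at hcon
  have h1 : (univ : Finset (ZMod p)) ⊆ D.biUnion fun d => univ.filter fun l : ZMod p =>
      l * (d : ZMod p) ∈ I p L := by
    intro l _
    obtain ⟨d, hd, hd'⟩ := hcon l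
    exact Finset.mem_biUnion.2 ⟨d, hd, Finset.mem_filter.2 ⟨Finset.mem_univ _, hd'⟩⟩
  have h2 := Finset.card_le_card h1
  rw [Finset.card_univ, ZMod.card] at h2
  have h3 : (D.biUnion fun d => univ.filter fun l : ZMod p => l * (d : ZMod p) ∈ I p L).card ≤
      D.card * (2 * L) := by
    refine Finset.card_biUnion_le_card_mul _ _ _ fun d hd => ?_
    refine le_trans ?_ (card_I p L)
    have hd0 : (d : ZMod p) ≠ 0 := by
      intro h
      rw [ZMod.intCast_zmod_eq_zero_iff_dvd] at h
      have h4 : p ∣ d.natAbs := Int.natCast_dvd.1 h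
      have h5 : d ≠ 0 := fun h => hD (h ▸ hd)
      have h6 := Nat.le_of_dvd (by omega) h4
      have := hp d hd
      omega
    refine Finset.card_le_card_of_injOn (fun l => l * (d : ZMod p)) ?_ ?_
    · intro l hl
      exact (Finset.mem_filter.1 (Finset.mem_coe.1 hl)).2
    · intro l _ l' _ h
      exact mul_right_cancel₀ hd0 h
  omega

/-- **Colourings.** For each finite set `D` of nonzero integers the integers can be coloured with
`4 chi k |D|` colours without monochromatic progressions of length `k` and difference in `D`. -/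
theorem color {k : ℕ} (hk : 3 ≤ k) (D : Finset ℤ) (hD : (0 : ℤ) ∉ D) :
    ∃ f : ℤ → ℕ, (∀ n, f n < 4 * chi k D.card) ∧
      ∀ a : ℤ, ∀ d ∈ D, ¬ ∀ i < k, f (a + (i : ℕ) * d) = f a := by
  classical
  obtain ⟨c, hc, hc2⟩ := chi_spec (k := k) (by omega) D.card
  rcases D.eq_empty_or_nonempty with h0 | hne
  · refine ⟨fun _ => 0, fun n => ?_, ?_⟩
    · have := hc 0
      show 0 < 4 * chi k D.card
      omega
    · intro a d hd
      rw [h0] at hd
      simp at hd
  set m := D.card with hm
  have hm1 : 1 ≤ m := hne.card_pos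
  obtain ⟨p, hp1, hp⟩ := Nat.exists_infinite_primes (∑ d ∈ D, d.natAbs + 8 * m + 8)
  have : Fact p.Prime := ⟨hp⟩
  have hp0 : 0 < p := hp.pos
  have : NeZero p := ⟨hp0.ne'⟩
  set L := p / (4 * m) + 1 with hL
  set W := 2 * L with hW
  set h := (p + 1) / 2 with hh
  have hL1 : 1 ≤ L := by rw [hL]; exact Nat.le_add_left _ _
  have hodd : p % 2 = 1 := by
    rcases hp.eq_two_or_odd with h2 | h2
    · omega
    · exact h2
  -- the blocks cover
  have hcov : h ≤ m * W := by
    have h1 : p < 4 * m * (p / (4 * m) + 1) := Nat.lt_mul_div_succ p (by omega)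
    rw [← hL] at h1
    have h2 : 2 * (m * W) = 4 * m * L := by rw [hW]; ring
    omega
  have hLlt : m * (2 * L) < p := by
    have h1 : 4 * m * (p / (4 * m)) ≤ p := Nat.mul_div_le p (4 * m)
    have h2 : 2 * (m * (2 * L)) = 4 * m * (p / (4 * m)) + 4 * m := by rw [hL]; ring
    omega
  obtain ⟨l, hl⟩ := exists_dilation D hD (p := p) (L := L) (fun d hd => by
    have h1 : d.natAbs ≤ ∑ d ∈ D, d.natAbs :=
      Finset.single_le_sum (f := fun d : ℤ => d.natAbs) (fun _ _ => Nat.zero_le _) hd
    omega) (by rw [← hm]; exact hLlt)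
  -- the colour of a residue
  let half : ℕ → ℕ := fun s => if s < h then 0 else 1
  let pos : ℕ → ℕ := fun s => s - half s * h
  let sub : ℕ → ℕ := fun s => if pos s % W < L then 0 else 1
  let col : ℕ → ℕ := fun s => 4 * c (pos s / W + 1) + (2 * half s + sub s)
  have hhalf : ∀ s, half s < 2 := fun s => by simp only [half]; split_ifs <;> omega
  have hsub : ∀ s, sub s < 2 := fun s => by simp only [sub]; split_ifs <;> omega
  refine ⟨fun n => col (l * (n : ZMod p)).val, fun n => ?_, ?_⟩
  · have h1 := hhalf (l * (n : ZMod p)).val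
    have h2 := hsub (l * (n : ZMod p)).val
    have h3 := hc (pos (l * (n : ZMod p)).val / W + 1)
    show 4 * c (pos (l * (n : ZMod p)).val / W + 1) + (2 * half (l * (n : ZMod p)).val +
      sub (l * (n : ZMod p)).val) < 4 * chi k m
    omega
  intro a d hd hmono
  apply hl d hd
  set y : ZMod p := l * (a : ZMod p) with hy
  set e : ZMod p := l * (d : ZMod p) with he
  have hs : ∀ i : ℕ, l * (((a + (i : ℕ) * d : ℤ)) : ZMod p) = y + (i : ℕ) • e := by
    intro i
    rw [hy, he, nsmul_eq_mul]
    push_cast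
    ring
  have hcol : ∀ i < k, col (y + (i : ℕ) • e).val = col y.val := by
    intro i hi
    have := hmono i hi
    simp only at this
    rw [hs] at this
    exact this
  have hdec : ∀ i < k, c (pos (y + (i : ℕ) • e).val / W + 1) = c (pos y.val / W + 1) ∧
      half (y + (i : ℕ) • e).val = half y.val ∧ sub (y + (i : ℕ) • e).val = sub y.val := by
    intro i hi
    have h1 := hcol i hi
    have h2 := hhalf (y + (i : ℕ) • e).val
    have h3 := hsub (y + (i : ℕ) • e).val
    have h2' := hhalf y.val
    have h3' := hsub y.val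
    have h4 : 4 * c (pos (y + (i : ℕ) • e).val / W + 1) + (2 * half (y + (i : ℕ) • e).val +
      sub (y + (i : ℕ) • e).val) = 4 * c (pos y.val / W + 1) + (2 * half y.val + sub y.val) := h1
    refine ⟨by omega, by omega, by omega⟩
  -- the colour class
  set γ := c (pos y.val / W + 1) with hγ
  set B := (Icc 1 m).filter fun b => c b = γ with hB
  have hBf : APFree k B := by
    intro a' d' hd' hap
    have h0 := Finset.mem_filter.1 (hap 0 (by omega))
    have hk1 := Finset.mem_filter.1 (hap (k - 1) (by omega))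
    rw [Finset.mem_Icc] at h0 hk1
    refine hc2 a' d' (by simpa using h0.1.1) hd' hk1.1.2 fun i hi => ?_
    have h1 := (Finset.mem_filter.1 (hap i hi)).2
    have h2 := h0.2
    simp only [zero_mul, add_zero] at h2
    rw [h1, h2]
  -- the offset
  set o : ℕ := half y.val * h + sub y.val * L with ho
  have hval : ∀ i < k, ((y - (o : ZMod p)) + (i : ℕ) • e).val = (y + (i : ℕ) • e).val - o ∧
      (y + (i : ℕ) • e).val - o < h ∧ ((y + (i : ℕ) • e).val - o) / W = pos (y + (i : ℕ) • e).val / W ∧
      ((y + (i : ℕ) • e).val - o) % W < L := by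
    intro i hi
    obtain ⟨-, h2, h3⟩ := hdec i hi
    set s := (y + (i : ℕ) • e).val with hs'
    have hsp : s < p := ZMod.val_lt _
    have hpos : s = half s * h + pos s := by
      simp only [pos, half]
      split_ifs <;> omega
    have hposh : pos s < h := by
      simp only [pos, half]
      split_ifs <;> omega
    have hLW : L < W := by omega
    have hdm := Nat.div_add_mod (pos s) W
    have hmod := Nat.mod_lt (pos s) (show 0 < W by omega)
    have hso : pos s = s - o + sub s * L ∧ sub s * L ≤ pos s % W ∧ pos s % W < sub s * L + L := by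
      have h4 : sub s * L ≤ pos s % W ∧ pos s % W < sub s * L + L := by
        by_cases h5 : pos s % W < L
        · have : sub s = 0 := by simp only [sub, if_pos h5]
          rw [this]; omega
        · have : sub s = 1 := by simp only [sub, if_neg h5]
          rw [this]; omega
      refine ⟨?_, h4⟩
      have h6 : pos s % W ≤ pos s := Nat.mod_le _ _
      rw [ho, ← h2, ← h3]
      omega
    have hle : o ≤ s := by
      have h6 : pos s % W ≤ pos s := Nat.mod_le _ _
      rw [ho, ← h2, ← h3]
      omega
    refine ⟨?_, by omega, ?_, ?_⟩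
    · have e1 : (y - (o : ZMod p)) + (i : ℕ) • e = ((s - o : ℕ) : ZMod p) := by
        rw [Nat.cast_sub hle, hs', ZMod.natCast_zmod_val]
        ring
      rw [e1, ZMod.val_natCast_of_lt (by omega)]
    · have e2 : s - o = W * (pos s / W) + (pos s % W - sub s * L) := by omega
      have e3 : (pos s % W - sub s * L) / W = 0 := Nat.div_eq_of_lt (by omega)
      rw [e2, Nat.mul_add_div (by omega), e3, add_zero]
    · have e2 : s - o = W * (pos s / W) + (pos s % W - sub s * L) := by omega
      rw [e2, Nat.mul_add_mod, Nat.mod_eq_of_lt (by omega)]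
      omega
  refine ap_mod' (p := p) (k := k) (h := h) (W := W) (L := L) hk (by omega) (by omega) hBf
    (y := y - (o : ZMod p)) ?_
  intro i hi
  obtain ⟨v1, v2, v3, v4⟩ := hval i hi
  rw [v1]
  refine ⟨v2, ?_, v4⟩
  rw [v3, hB, Finset.mem_filter, Finset.mem_Icc]
  refine ⟨⟨Nat.le_add_left _ _, ?_⟩, (hdec i hi).1⟩
  have hW0 : 0 < W := by omega
  have h5 : ((y + (i : ℕ) • e).val - o) / W < m := by
    rw [Nat.div_lt_iff_lt_mul hW0]
    omega
  rw [v3] at h5
  omega

end H24.SF
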