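import Pool.Agent.H24.Lib.seeded_ab47071d.TH3.AP.Every
set_option autoImplicit false

/-! Random dilations modulo a prime. -/

namespace H24.SF

open Finset Pool.Agent.H617R3.AP Pool.Agent.TH3.AP

/-- real sequences of integers in a union of blocks -/
theorem blocks {k W L : ℕ} (hk : 3 ≤ k) (hL : 2 * L ≤ W) {B : Finset ℕ} (hB : APFree k B)
    (n : ℕ → ℕ) (e : ℤ) (hn : ∀ i < k, n i / W + 1 ∈ B ∧ n i % W < L)
    (he : ∀ i < k, (n i : ℤ) = n 0 + i * e) : -(L : ℤ) < e ∧ e < L := by
  have hL0 : 0 < L := by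
    have := (hn 0 (by omega)).2
    omega
  have hdec : ∀ i, (n i : ℤ) = W * (n i / W : ℕ) + (n i % W : ℕ) := by
    intro i
    exact_mod_cast (Nat.div_add_mod (n i) W).symm
  -- differences of consecutive blocks
  have hstep : ∀ i, i + 1 < k → -(L : ℤ) < e - W * (((n (i + 1) / W : ℕ) : ℤ) - (n i / W : ℕ)) ∧
      e - W * (((n (i + 1) / W : ℕ) : ℤ) - (n i / W : ℕ)) < L := by
    intro i hi
    have h1 := he i (by omega)
    have h2 := he (i + 1) hi
    have h3 := hdec i
    have h4 := hdec (i + 1)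
    have h5 := (hn i (by omega)).2
    have h6 := (hn (i + 1) hi).2
    have e1 : e - W * (((n (i + 1) / W : ℕ) : ℤ) - (n i / W : ℕ)) =
        (n (i + 1) % W : ℕ) - (n i % W : ℕ) := by
      have h7 : (n (i + 1) : ℤ) - n i = e := by
        rw [h1, h2]; push_cast; ring
      have h8 : (n (i + 1) : ℤ) - n i = W * (((n (i + 1) / W : ℕ) : ℤ) - (n i / W : ℕ)) +
          ((n (i + 1) % W : ℕ) - (n i % W : ℕ)) := by
        rw [h3, h4]; ring
      linarith
    rw [e1]
    constructor <;> omega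
  have hconst : ∀ i, i + 2 < k → ((n i / W : ℕ) : ℤ) + (n (i + 2) / W : ℕ) -
      2 * (n (i + 1) / W : ℕ) = 0 := by
    intro i hi
    have h1 := hstep i (by omega)
    have h2 := hstep (i + 1) (by omega)
    by_contra hne
    set z : ℤ := ((n i / W : ℕ) : ℤ) + (n (i + 2) / W : ℕ) - 2 * (n (i + 1) / W : ℕ) with hz
    have h3 : (W : ℤ) * z = (e - W * (((n (i + 1) / W : ℕ) : ℤ) - (n i / W : ℕ))) -
        (e - W * (((n (i + 1 + 1) / W : ℕ) : ℤ) - (n (i + 1) / W : ℕ))) := by
      rw [hz]; ring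
    have h4 : (W : ℤ) * z < 2 * L := by rw [h3]; linarith [h1.2, h2.1]
    have h5 : -(2 * (L : ℤ)) < W * z := by rw [h3]; linarith [h1.1, h2.2]
    have h6 : (2 * (L : ℤ)) ≤ W := by exact_mod_cast hL
    rcases lt_or_gt_of_ne hne with h | h
    · nlinarith
    · nlinarith
  have hlin := lin_of_second (k := k) (fun i => ((n i / W : ℕ) : ℤ) + 1) (by
    intro i hi
    have := hconst i hi
    linarith)
  have h0 := no_ap_int hk hB (fun i => n i / W + 1)
    ((((n 1 / W : ℕ) : ℤ) + 1) - (((n 0 / W : ℕ) : ℤ) + 1)) (fun i hi => (hn i hi).1) (by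
      intro i hi
      have := hlin i hi
      push_cast at this ⊢
      linarith)
  have h1 := hstep 0 (by omega)
  have e1 : ((n (0 + 1) / W : ℕ) : ℤ) - (n 0 / W : ℕ) = 0 := by
    have : ((n (0 + 1) / W : ℕ) : ℤ) = (n 1 / W : ℕ) := rfl
    linarith
  rw [e1] at h1
  constructor
  · linarith [h1.1]
  · linarith [h1.2]

/-- the union of the first parts of the blocks, modulo `p` -/
noncomputable def T (p M W L : ℕ) (B : Finset ℕ) [NeZero p] : Finset (ZMod p) :=
  univ.filter fun s => s.val < M * W ∧ s.val / W + 1 ∈ B ∧ s.val % W < L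

/-- small differences modulo `p` -/
noncomputable def I (p L : ℕ) [NeZero p] : Finset (ZMod p) :=
  (Ioo (-(L : ℤ)) (L : ℤ)).image fun j : ℤ => (j : ZMod p)

theorem card_I (p L : ℕ) [NeZero p] : (I p L).card ≤ 2 * L := by
  refine Finset.card_image_le.trans ?_
  rw [Int.card_Ioo]
  omega

theorem card_T {p M W L : ℕ} [NeZero p] {B : Finset ℕ} (hB : B ⊆ Icc 1 M) (hp : M * W ≤ p)
    (hL : L ≤ W) : B.card * L ≤ (T p M W L B).card := by
  classical
  have h1 : (B ×ˢ range L).card = B.card * L := by simp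
  rw [← h1]
  refine Finset.card_le_card_of_injOn (fun q => (((q.1 - 1) * W + q.2 : ℕ) : ZMod p)) ?_ ?_
  · intro q hq
    have hq' := Finset.mem_product.1 (Finset.mem_coe.1 hq)
    have h2 := Finset.mem_Icc.1 (hB hq'.1)
    have h3 := Finset.mem_range.1 hq'.2
    have hlt : (q.1 - 1) * W + q.2 < M * W := by
      have : (q.1 - 1 + 1) * W ≤ M * W := Nat.mul_le_mul_right _ (by omega)
      rw [Nat.add_mul, one_mul] at this
      omega
    have hval : ((((q.1 - 1) * W + q.2 : ℕ) : ZMod p)).val = (q.1 - 1) * W + q.2 :=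
      ZMod.val_natCast_of_lt (by omega)
    rw [Finset.mem_coe, T, Finset.mem_filter]
    refine ⟨Finset.mem_univ _, ?_⟩
    rw [hval]
    have hW : 0 < W := by omega
    have hdiv : ((q.1 - 1) * W + q.2) / W = q.1 - 1 := by
      rw [mul_comm, Nat.mul_add_div hW, Nat.div_eq_of_lt (by omega), add_zero]
    have hmod : ((q.1 - 1) * W + q.2) % W = q.2 := by
      rw [mul_comm, Nat.mul_add_mod, Nat.mod_eq_of_lt (by omega)]
    rw [hdiv, hmod]
    refine ⟨hlt, ?_, h3⟩
    rw [Nat.sub_add_cancel h2.1]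
    exact hq'.1
  · intro q hq q' hq' h
    have hq1 := Finset.mem_product.1 (Finset.mem_coe.1 hq)
    have hq2 := Finset.mem_product.1 (Finset.mem_coe.1 hq')
    have h2 := Finset.mem_Icc.1 (hB hq1.1)
    have h3 := Finset.mem_range.1 hq1.2
    have h2' := Finset.mem_Icc.1 (hB hq2.1)
    have h3' := Finset.mem_range.1 hq2.2
    have hlt : (q.1 - 1) * W + q.2 < M * W := by
      have : (q.1 - 1 + 1) * W ≤ M * W := Nat.mul_le_mul_right _ (by omega)
      rw [Nat.add_mul, one_mul] at this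
      omega
    have hlt' : (q'.1 - 1) * W + q'.2 < M * W := by
      have : (q'.1 - 1 + 1) * W ≤ M * W := Nat.mul_le_mul_right _ (by omega)
      rw [Nat.add_mul, one_mul] at this
      omega
    have h4 : (q.1 - 1) * W + q.2 = (q'.1 - 1) * W + q'.2 := by
      have := congrArg ZMod.val h
      simp only at this
      rwa [ZMod.val_natCast_of_lt (by omega), ZMod.val_natCast_of_lt (by omega)] at this
    have hW : 0 < W := by omega
    have hdiv : ((q.1 - 1) * W + q.2) / W = q.1 - 1 := by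
      rw [mul_comm, Nat.mul_add_div hW, Nat.div_eq_of_lt (by omega), add_zero]
    have hdiv' : ((q'.1 - 1) * W + q'.2) / W = q'.1 - 1 := by
      rw [mul_comm, Nat.mul_add_div hW, Nat.div_eq_of_lt (by omega), add_zero]
    have hmod : ((q.1 - 1) * W + q.2) % W = q.2 := by
      rw [mul_comm, Nat.mul_add_mod, Nat.mod_eq_of_lt (by omega)]
    have hmod' : ((q'.1 - 1) * W + q'.2) % W = q'.2 := by
      rw [mul_comm, Nat.mul_add_mod, Nat.mod_eq_of_lt (by omega)]
    refine Prod.ext ?_ ?_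
    · have : q.1 - 1 = q'.1 - 1 := by rw [← hdiv, ← hdiv', h4]
      omega
    · rw [← hmod, ← hmod', h4]

/-- progressions modulo `p` in a union of blocks have small differences -/
theorem ap_mod' {p k h W L : ℕ} [NeZero p] (hk : 3 ≤ k) (hL : 2 * L ≤ W) (hp : 2 * h ≤ p + 1)
    {B : Finset ℕ} (hB : APFree k B) {y e : ZMod p}
    (hmem : ∀ i < k, (y + (i : ℕ) • e).val < h ∧ (y + (i : ℕ) • e).val / W + 1 ∈ B ∧
      (y + (i : ℕ) • e).val % W < L) : e ∈ I p L := by
  -- the integer difference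
  set e' : ℤ := ((y + (1 : ℕ) • e).val : ℤ) - (y + (0 : ℕ) • e).val with he'
  have hcast : ∀ i : ℕ, (((y + (i : ℕ) • e).val : ℤ) : ZMod p) = y + (i : ℕ) • e := by
    intro i
    rw [Int.cast_natCast, ZMod.natCast_zmod_val]
  have hstep : ∀ i, i + 1 < k → ((y + (i + 1 : ℕ) • e).val : ℤ) - (y + (i : ℕ) • e).val = e' := by
    intro i hi
    have h0 := (hmem 0 (by omega)).1
    have h1 := (hmem 1 (by omega)).1
    have h2 := (hmem i (by omega)).1
    have h3 := (hmem (i + 1) hi).1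
    have hc : ((((y + (i + 1 : ℕ) • e).val : ℤ) - (y + (i : ℕ) • e).val - e' : ℤ) : ZMod p) = 0 := by
      rw [he']
      push_cast
      have a1 := hcast (i + 1)
      have a2 := hcast i
      have a3 := hcast 1
      have a4 := hcast 0
      rw [Int.cast_natCast] at a1 a2 a3 a4
      rw [a1, a2, a3, a4, add_smul]
      simp
    rw [ZMod.intCast_zmod_eq_zero_iff_dvd] at hc
    have habs : |((y + (i + 1 : ℕ) • e).val : ℤ) - (y + (i : ℕ) • e).val - e'| < p := by
      rw [he', abs_lt]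
      constructor <;> omega
    have := Int.eq_zero_of_abs_lt_dvd hc habs
    linarith
  have hall : ∀ i < k, ((y + (i : ℕ) • e).val : ℤ) = (y + (0 : ℕ) • e).val + i * e' := by
    intro i
    induction i with
    | zero => intro _; simp
    | succ i ih =>
      intro hi
      have h1 := ih (by omega)
      have h2 := hstep i hi
      push_cast
      linarith
  have hb := blocks hk hL hB (fun i => (y + (i : ℕ) • e).val) e'
    (fun i hi => ⟨(hmem i hi).2.1, (hmem i hi).2.2⟩) hall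
  rw [I, Finset.mem_image]
  refine ⟨e', Finset.mem_Ioo.2 hb, ?_⟩
  rw [he']
  push_cast
  have a3 := hcast 1
  have a4 := hcast 0
  rw [Int.cast_natCast] at a3 a4
  rw [a3, a4]
  simp

theorem ap_mod {p k M W L : ℕ} [NeZero p] (hk : 3 ≤ k) (hL : 2 * L ≤ W) (hp : 2 * (M * W) ≤ p)
    {B : Finset ℕ} (hB : APFree k B) {y e : ZMod p}
    (h : ∀ i < k, y + (i : ℕ) • e ∈ T p M W L B) : e ∈ I p L :=
  ap_mod' hk hL (h := M * W) (by omega) hB fun i hi => (Finset.mem_filter.1 (h i hi)).2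

/-- averaging over all dilations and translations -/
theorem avg {p : ℕ} [Fact p.Prime] (S J : Finset (ZMod p)) {G : Type*}
    (f g : G → ZMod p) (X : Finset G) (P : Finset (G × G)) (w : G → ℝ)
    (hP : ∀ q ∈ P, g q.2 ≠ 0) :
    ∃ l t : ZMod p, ((S.card : ℝ) * p * ∑ x ∈ X, w x - J.card * S.card * ∑ q ∈ P, w q.1) / p ^ 2 ≤
      ∑ x ∈ X, (if l * f x + t ∈ S then w x else 0) -
        ∑ q ∈ P, (if l * g q.2 ∈ J ∧ l * f q.1 + t ∈ S then w q.1 else 0) := by
  classical
  have hp0 : (0 : ℝ) < p := by exact_mod_cast (Fact.out : p.Prime).pos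
  have hcardS : ∀ c : ZMod p, ((univ.filter fun t : ZMod p => c + t ∈ S).card : ℝ) = S.card := by
    intro c
    norm_cast
    refine Finset.card_bij (fun t _ => c + t) ?_ ?_ ?_
    · intro t ht
      exact (Finset.mem_filter.1 ht).2
    · intro t _ t' _ h
      exact add_left_cancel h
    · intro s hs
      exact ⟨s - c, Finset.mem_filter.2 ⟨Finset.mem_univ _, by simpa using hs⟩, by ring⟩
  have hcardJ : ∀ d : ZMod p, d ≠ 0 → ((univ.filter fun l : ZMod p => l * d ∈ J).card : ℝ) = J.card := by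
    intro d hd
    norm_cast
    refine Finset.card_bij (fun l _ => l * d) ?_ ?_ ?_
    · intro t ht
      exact (Finset.mem_filter.1 ht).2
    · intro t _ t' _ h
      exact mul_right_cancel₀ hd h
    · intro s hs
      refine ⟨s * d⁻¹, Finset.mem_filter.2 ⟨Finset.mem_univ _, ?_⟩, ?_⟩
      · rw [mul_assoc, inv_mul_cancel₀ hd, mul_one]; exact hs
      · rw [mul_assoc, inv_mul_cancel₀ hd, mul_one]
  have hsum1 : ∑ l : ZMod p, ∑ t : ZMod p, ∑ x ∈ X, (if l * f x + t ∈ S then w x else 0) =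
      (p : ℝ) * S.card * ∑ x ∈ X, w x := by
    have h1 : ∀ l : ZMod p, ∑ t : ZMod p, ∑ x ∈ X, (if l * f x + t ∈ S then w x else 0) =
        S.card * ∑ x ∈ X, w x := by
      intro l
      rw [Finset.sum_comm, Finset.mul_sum]
      refine Finset.sum_congr rfl fun x _ => ?_
      rw [← Finset.sum_filter, Finset.sum_const, nsmul_eq_mul, hcardS]
    rw [Finset.sum_congr rfl fun l _ => h1 l, Finset.sum_const, Finset.card_univ, ZMod.card,
      nsmul_eq_mul]
    ring
  have hsum2 : ∑ l : ZMod p, ∑ t : ZMod p,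
      ∑ q ∈ P, (if l * g q.2 ∈ J ∧ l * f q.1 + t ∈ S then w q.1 else 0) =
      (J.card : ℝ) * S.card * ∑ q ∈ P, w q.1 := by
    have h1 : ∀ l : ZMod p, ∑ t : ZMod p,
        ∑ q ∈ P, (if l * g q.2 ∈ J ∧ l * f q.1 + t ∈ S then w q.1 else 0) =
        ∑ q ∈ P, (if l * g q.2 ∈ J then S.card * w q.1 else 0) := by
      intro l
      rw [Finset.sum_comm]
      refine Finset.sum_congr rfl fun q _ => ?_
      by_cases hq : l * g q.2 ∈ J
      · simp only [hq, true_and, if_true]
        rw [← Finset.sum_filter, Finset.sum_const, nsmul_eq_mul, hcardS]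
      · simp [hq]
    rw [Finset.sum_congr rfl fun l _ => h1 l, Finset.sum_comm, Finset.mul_sum]
    refine Finset.sum_congr rfl fun q hq => ?_
    rw [← Finset.sum_filter, Finset.sum_const, nsmul_eq_mul, hcardJ _ (hP q hq)]
    ring
  by_contra hcon
  push Not at hcon
  have h1 : ∑ l : ZMod p, ∑ t : ZMod p, (∑ x ∈ X, (if l * f x + t ∈ S then w x else 0) -
        ∑ q ∈ P, (if l * g q.2 ∈ J ∧ l * f q.1 + t ∈ S then w q.1 else 0)) <
      ∑ _l : ZMod p, ∑ _t : ZMod p, ((S.card : ℝ) * p * ∑ x ∈ X, w x -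
        J.card * S.card * ∑ q ∈ P, w q.1) / p ^ 2 := by
    have hne : (univ : Finset (ZMod p)).Nonempty := ⟨0, Finset.mem_univ _⟩
    refine Finset.sum_lt_sum_of_nonempty hne fun l _ => ?_
    exact Finset.sum_lt_sum_of_nonempty hne fun t _ => hcon l t
  have h2 : ∑ l : ZMod p, ∑ t : ZMod p, (∑ x ∈ X, (if l * f x + t ∈ S then w x else 0) -
        ∑ q ∈ P, (if l * g q.2 ∈ J ∧ l * f q.1 + t ∈ S then w q.1 else 0)) =
      (p : ℝ) * S.card * ∑ x ∈ X, w x - (J.card : ℝ) * S.card * ∑ q ∈ P, w q.1 := by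
    rw [← hsum1, ← hsum2, ← Finset.sum_sub_distrib]
    refine Finset.sum_congr rfl fun l _ => ?_
    rw [← Finset.sum_sub_distrib]
  rw [h2, Finset.sum_const, Finset.sum_const, Finset.card_univ, ZMod.card, nsmul_eq_mul,
    nsmul_eq_mul] at h1
  have h3 : (p : ℝ) * (p * (((S.card : ℝ) * p * ∑ x ∈ X, w x -
        J.card * S.card * ∑ q ∈ P, w q.1) / p ^ 2)) = (S.card : ℝ) * p * ∑ x ∈ X, w x -
        J.card * S.card * ∑ q ∈ P, w q.1 := by
    field_simp
  rw [h3] at h1
  linarith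

end H24.SF
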