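import Mathlib
set_option autoImplicit false

/-! Finite sets in torsion-free abelian groups: generic homomorphisms to the integers. -/

namespace H24.SF

open Finset

/-- a homomorphism from the group generated by a finite set to the integers which does not vanish
on the nonzero elements of the finite set -/
theorem exists_hom {G : Type*} [AddCommGroup G] [IsAddTorsionFree G] (F : Finset G) :
    ∃ f : G → ℤ, (∀ x ∈ AddSubgroup.closure (F : Set G), ∀ y ∈ AddSubgroup.closure (F : Set G),
      f (x + y) = f x + f y) ∧ ∀ x ∈ F, x ≠ 0 → f x ≠ 0 := by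
  classical
  set M : Submodule ℤ G := Submodule.span ℤ (F : Set G) with hM
  have hfin : Module.Finite ℤ M := inferInstance
  have htf : Module.IsTorsionFree ℤ M := inferInstance
  have hfree : Module.Free ℤ M := inferInstance
  let b : Module.Basis (Fin (Module.finrank ℤ M)) ℤ M := Module.finBasis ℤ M
  set D := Module.finrank ℤ M with hD
  have hmem : ∀ x, x ∈ AddSubgroup.closure (F : Set G) → x ∈ M := by
    intro x hx
    rw [← Submodule.mem_toAddSubgroup, hM, Submodule.span_int_eq_addSubgroupClosure]
    exact hx
  -- the polynomial of an element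
  let Q : M → Polynomial ℤ := fun x => ∑ j : Fin D, Polynomial.C (b.repr x j) * Polynomial.X ^ (j : ℕ)
  have hQ0 : ∀ x : M, x ≠ 0 → Q x ≠ 0 := by
    intro x hx h
    apply hx
    apply b.repr.injective
    rw [map_zero]
    ext j
    have h1 := congrArg (fun P : Polynomial ℤ => P.coeff (j : ℕ)) h
    simp only [Q, Polynomial.finset_sum_coeff, Polynomial.coeff_C_mul, Polynomial.coeff_X_pow,
      Polynomial.coeff_zero] at h1
    rw [Finset.sum_eq_single j] at h1
    · simpa using h1
    · intro i _ hij
      rw [if_neg (fun h => hij (Fin.ext h.symm)), mul_zero]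
    · simp
  let R : Finset ℤ := F.biUnion fun x => if hx : x ∈ M then (Q ⟨x, hx⟩).roots.toFinset else ∅
  obtain ⟨T, hT⟩ := Infinite.exists_notMem_finset R
  refine ⟨fun x => if hx : x ∈ M then (Q ⟨x, hx⟩).eval T else 0, ?_, ?_⟩
  · intro x hx y hy
    have hx' := hmem x hx
    have hy' := hmem y hy
    have hxy : x + y ∈ M := M.add_mem hx' hy'
    simp only [dif_pos hx', dif_pos hy', dif_pos hxy]
    rw [← Polynomial.eval_add]
    congr 1
    simp only [Q]
    rw [← Finset.sum_add_distrib]
    refine Finset.sum_congr rfl fun j _ => ?_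
    have : b.repr (⟨x + y, hxy⟩ : M) = b.repr ⟨x, hx'⟩ + b.repr ⟨y, hy'⟩ := by
      rw [← map_add]
      rfl
    rw [this, Finsupp.add_apply, Polynomial.C_add, add_mul]
  · intro x hx hx0
    have hx' : x ∈ M := Submodule.subset_span hx
    simp only [dif_pos hx']
    intro h
    apply hT
    simp only [R, Finset.mem_biUnion]
    refine ⟨x, hx, ?_⟩
    rw [dif_pos hx', Multiset.mem_toFinset, Polynomial.mem_roots]
    · exact h
    · apply hQ0
      intro h0
      apply hx0
      exact congrArg Subtype.val h0

end H24.SF
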