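import Pool.Agent.H24.SF.Core
import Pool.Agent.H24.SF.Hom
set_option autoImplicit false

/-! Sets avoiding sparse families of progressions. -/

namespace H24.SF

open Finset Pool.Agent.H617R3.AP

/-- no progression `q.1, q.1 + q.2, ..., q.1 + (k - 1) q.2`, `q ∈ P`, lies in `A` -/
def Avoids {G : Type*} [AddCommGroup G] (k : ℕ) (P : Finset (G × G)) (A : Finset G) : Prop :=
  ∀ q ∈ P, ¬ ∀ i < k, q.1 + i • q.2 ∈ A

theorem sum_image_fst_le {G : Type*} [DecidableEq G] (Q : Finset (G × G)) {w : G → ℝ}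
    (hw : ∀ x, 0 ≤ w x) : ∑ x ∈ Q.image Prod.fst, w x ≤ ∑ q ∈ Q, w q.1 := by
  rw [Finset.sum_comp w Prod.fst]
  refine Finset.sum_le_sum fun x hx => ?_
  obtain ⟨q, hq, hq'⟩ := Finset.mem_image.1 hx
  have h1 : 1 ≤ (Q.filter fun q => q.1 = x).card :=
    Finset.card_pos.2 ⟨q, Finset.mem_filter.2 ⟨hq, hq'⟩⟩
  rw [nsmul_eq_mul]
  have h2 : (1 : ℝ) ≤ (Q.filter fun q => q.1 = x).card := by exact_mod_cast h1
  nlinarith [hw x]

theorem prime_step {p : ℕ} [Fact p.Prime] {k m W L : ℕ} (hk : 3 ≤ k) (hL : 2 * L ≤ W)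
    (hW : 2 * (m * W) ≤ p) {G : Type*} [AddCommGroup G] [DecidableEq G] (f : G → ZMod p)
    (X : Finset G) (P : Finset (G × G)) {w : G → ℝ} (hw : ∀ x, 0 ≤ w x)
    (hP : ∀ q ∈ P, f q.2 ≠ 0)
    (hlin : ∀ q ∈ P, ∀ i < k, f (q.1 + i • q.2) = f q.1 + i • f q.2)
    (hsum : ∑ q ∈ P, w q.1 ≤ m * ∑ x ∈ X, w x) :
    ∃ A ⊆ X, Avoids k P A ∧
      (r k m : ℝ) * L / (2 * p) * ∑ x ∈ X, w x ≤ ∑ x ∈ A, w x := by
  classical
  have hp0 : 0 < p := (Fact.out : p.Prime).pos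
  have hp0' : (0 : ℝ) < p := by exact_mod_cast hp0
  have : NeZero p := ⟨hp0.ne'⟩
  obtain ⟨B, hB, hBf, hBc⟩ := exists_opt (k := k) (by omega) m
  set S := T p m W L B with hS
  set J := I p L with hJ
  obtain ⟨l, t, hlt⟩ := avg S J f f X P w hP
  set X' := X.filter fun x => l * f x + t ∈ S with hX'
  set Q := P.filter fun q => l * f q.2 ∈ J ∧ l * f q.1 + t ∈ S with hQ
  refine ⟨X' \ Q.image Prod.fst, Finset.sdiff_subset.trans (Finset.filter_subset _ _), ?_, ?_⟩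
  · intro q hq h
    have h0 := h 0 (by omega)
    rw [Finset.mem_sdiff] at h0
    apply h0.2
    rw [Finset.mem_image]
    refine ⟨q, ?_, by simp⟩
    rw [hQ, Finset.mem_filter]
    refine ⟨hq, ?_, ?_⟩
    · refine ap_mod (p := p) (k := k) (M := m) (W := W) (L := L) hk hL hW hBf
        (y := l * f q.1 + t) ?_
      intro i hi
      have h1 := (Finset.mem_filter.1 (Finset.mem_sdiff.1 (h i hi)).1).2
      rw [hlin q hq i hi] at h1
      have e : l * f q.1 + t + (i : ℕ) • (l * f q.2) = l * (f q.1 + i • f q.2) + t := by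
        rw [nsmul_eq_mul, nsmul_eq_mul]; ring
      rw [e]
      exact h1
    · have h1 := (Finset.mem_filter.1 h0.1).2
      simpa using h1
  · have h1 : ∑ x ∈ X, (if l * f x + t ∈ S then w x else 0) = ∑ x ∈ X', w x := by
      rw [hX', Finset.sum_filter]
    have h2 : ∑ q ∈ P, (if l * f q.2 ∈ J ∧ l * f q.1 + t ∈ S then w q.1 else 0) =
        ∑ q ∈ Q, w q.1 := by
      rw [hQ, Finset.sum_filter]
    rw [h1, h2] at hlt
    have h3 : ∑ x ∈ X' ∩ Q.image Prod.fst, w x + ∑ x ∈ X' \ Q.image Prod.fst, w x =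
        ∑ x ∈ X', w x := Finset.sum_inter_add_sum_sdiff _ _ _
    have h4 : ∑ x ∈ X' ∩ Q.image Prod.fst, w x ≤ ∑ q ∈ Q, w q.1 :=
      (Finset.sum_le_sum_of_subset_of_nonneg Finset.inter_subset_right
        (fun x _ _ => hw x)).trans (sum_image_fst_le Q hw)
    have h5 : (B.card : ℝ) * L ≤ S.card := by
      exact_mod_cast card_T (p := p) (M := m) (W := W) (L := L) hB (by omega) (by omega)
    have h6 : (J.card : ℝ) ≤ 2 * L := by exact_mod_cast card_I p L
    have hs0 : 0 ≤ ∑ x ∈ X, w x := Finset.sum_nonneg fun x _ => hw x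
    have hsP : 0 ≤ ∑ q ∈ P, w q.1 := Finset.sum_nonneg fun x _ => hw _
    have h7 : (J.card : ℝ) * ∑ q ∈ P, w q.1 ≤ p / 2 * ∑ x ∈ X, w x := by
      have h8 : (2 : ℝ) * L * m ≤ p / 2 := by
        have h9 : 2 * (m * (2 * L)) ≤ p := le_trans (by gcongr) hW
        have h10 : (2 : ℝ) * (m * (2 * L)) ≤ p := by exact_mod_cast h9
        linarith
      calc (J.card : ℝ) * ∑ q ∈ P, w q.1 ≤ (2 * L) * (m * ∑ x ∈ X, w x) :=
            mul_le_mul h6 hsum hsP (by positivity)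
        _ = (2 * L * m) * ∑ x ∈ X, w x := by ring
        _ ≤ _ := mul_le_mul_of_nonneg_right h8 hs0
    have h8 : (S.card : ℝ) * (p / 2 * ∑ x ∈ X, w x) ≤
        (S.card : ℝ) * p * ∑ x ∈ X, w x - J.card * S.card * ∑ q ∈ P, w q.1 := by
      have := mul_le_mul_of_nonneg_left h7 (Nat.cast_nonneg (α := ℝ) S.card)
      nlinarith
    have h9 : (r k m : ℝ) * L / (2 * p) * ∑ x ∈ X, w x ≤
        (S.card : ℝ) * (p / 2 * ∑ x ∈ X, w x) / p ^ 2 := by
      have e : (S.card : ℝ) * (p / 2 * ∑ x ∈ X, w x) / p ^ 2 =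
          (S.card : ℝ) / (2 * p) * ∑ x ∈ X, w x := by
        field_simp
      rw [e, ← hBc]
      gcongr
    have h10 : (S.card : ℝ) * (p / 2 * ∑ x ∈ X, w x) / p ^ 2 ≤
        ((S.card : ℝ) * p * ∑ x ∈ X, w x - J.card * S.card * ∑ q ∈ P, w q.1) / p ^ 2 := by
      gcongr
    linarith

/-- **Sparse families of progressions**: the lower bound. -/
theorem main {G : Type*} [AddCommGroup G] [IsAddTorsionFree G] {k m : ℕ} (hk : 3 ≤ k)
    (hm : 1 ≤ m) (X : Finset G) (P : Finset (G × G)) {w : G → ℝ} (hw : ∀ x, 0 ≤ w x)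
    (hP : ∀ q ∈ P, q.2 ≠ 0) (hsum : ∑ q ∈ P, w q.1 ≤ m * ∑ x ∈ X, w x) :
    ∃ A ⊆ X, Avoids k P A ∧ (r k m : ℝ) / (8 * m) * ∑ x ∈ X, w x ≤ ∑ x ∈ A, w x := by
  classical
  set F : Finset G := P.image Prod.fst ∪ P.image Prod.snd with hF
  obtain ⟨f, hadd, hne⟩ := exists_hom F
  have hF1 : ∀ q ∈ P, q.1 ∈ F := fun q hq =>
    Finset.mem_union_left _ (Finset.mem_image_of_mem _ hq)
  have hF2 : ∀ q ∈ P, q.2 ∈ F := fun q hq =>
    Finset.mem_union_right _ (Finset.mem_image_of_mem _ hq)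
  have hlin : ∀ q ∈ P, ∀ i : ℕ, f (q.1 + i • q.2) = f q.1 + i * f q.2 := by
    intro q hq i
    have c1 : q.1 ∈ AddSubgroup.closure (F : Set G) := AddSubgroup.subset_closure (hF1 q hq)
    have c2 : q.2 ∈ AddSubgroup.closure (F : Set G) := AddSubgroup.subset_closure (hF2 q hq)
    induction i with
    | zero => simp
    | succ i ih =>
      have e : q.1 + (i + 1) • q.2 = (q.1 + i • q.2) + q.2 := by
        rw [add_smul, one_smul]; abel
      rw [e, hadd _ (add_mem c1 (nsmul_mem c2 i)) _ c2, ih]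
      push_cast
      ring
  -- the best set
  have h𝒜 : (X.powerset.filter fun A => Avoids k P A).Nonempty := by
    refine ⟨∅, Finset.mem_filter.2 ⟨Finset.empty_mem_powerset _, fun q _ h => ?_⟩⟩
    have := h 0 (by omega)
    simp at this
  obtain ⟨A, hA, hmax⟩ := Finset.exists_max_image _ (fun A => ∑ x ∈ A, w x) h𝒜
  rw [Finset.mem_filter, Finset.mem_powerset] at hA
  refine ⟨A, hA.1, hA.2, ?_⟩
  by_contra hcon
  push Not at hcon
  set sX := ∑ x ∈ X, w x with hs0'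
  have hs0 : 0 ≤ sX := Finset.sum_nonneg fun x _ => hw x
  set δ := (r k m : ℝ) / (8 * m) * sX - ∑ x ∈ A, w x with hδ
  have hδ0 : 0 < δ := by linarith
  obtain ⟨N, hN⟩ := exists_nat_gt ((r k m : ℝ) * sX / (2 * δ))
  set N' := N + ∑ q ∈ P, (f q.2).natAbs + 1 with hN'
  obtain ⟨p, hp1, hp⟩ := Nat.exists_infinite_primes N'
  have : Fact p.Prime := ⟨hp⟩
  have hp0 : (0 : ℝ) < p := by exact_mod_cast hp.pos
  have hm' : (0 : ℝ) < m := by exact_mod_cast hm
  have hfp : ∀ q ∈ P, ((f q.2 : ℤ) : ZMod p) ≠ 0 := by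
    intro q hq h
    rw [ZMod.intCast_zmod_eq_zero_iff_dvd] at h
    have h1 : (f q.2).natAbs ≤ ∑ q ∈ P, (f q.2).natAbs :=
      Finset.single_le_sum (f := fun q : G × G => (f q.2).natAbs) (fun _ _ => Nat.zero_le _) hq
    have h2 : p ∣ (f q.2).natAbs := Int.natCast_dvd.1 h
    have h3 := hne q.2 (hF2 q hq) (hP q hq)
    have h4 := Nat.le_of_dvd (by omega) h2
    omega
  set W := p / (2 * m) with hWdef
  set L := W / 2 with hLdef
  have hL : 2 * L ≤ W := Nat.mul_div_le W 2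
  have hW : 2 * (m * W) ≤ p := by
    have := Nat.mul_div_le p (2 * m)
    rw [← hWdef] at this
    calc 2 * (m * W) = 2 * m * W := by ring
      _ ≤ p := this
  have hLp : (p : ℝ) / (4 * m) - 1 ≤ L := by
    have h1 : p < 2 * m * (W + 1) := by
      have := Nat.lt_mul_div_succ p (show 0 < 2 * m by omega)
      rw [← hWdef] at this
      exact this
    have h2 : W < 2 * (L + 1) := by omega
    have h3 : p < 2 * m * (2 * (L + 1)) := lt_of_lt_of_le h1 (Nat.mul_le_mul_left _ h2)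
    have h4 : (p : ℝ) < 2 * m * (2 * (L + 1)) := by exact_mod_cast h3
    rw [sub_le_iff_le_add, div_le_iff₀ (by positivity)]
    linarith
  obtain ⟨A', hA'X, hA'P, hA'w⟩ := prime_step (p := p) (k := k) (m := m) (W := W) (L := L) hk hL hW
    (fun x => ((f x : ℤ) : ZMod p)) X P hw hfp (by
      intro q hq i _
      simp only [hlin q hq i]
      push_cast
      rw [nsmul_eq_mul]) hsum
  have h1 : ∑ x ∈ A', w x ≤ ∑ x ∈ A, w x :=
    hmax A' (Finset.mem_filter.2 ⟨Finset.mem_powerset.2 hA'X, hA'P⟩)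
  have h2 : (r k m : ℝ) * ((p : ℝ) / (4 * m) - 1) / (2 * p) * sX ≤
      (r k m : ℝ) * L / (2 * p) * sX := by
    gcongr
  have h3 : (r k m : ℝ) * ((p : ℝ) / (4 * m) - 1) / (2 * p) * sX =
      (r k m : ℝ) / (8 * m) * sX - (r k m : ℝ) * sX / (2 * p) := by
    field_simp
    ring
  have h4 : δ ≤ (r k m : ℝ) * sX / (2 * p) := by
    rw [hδ]
    linarith
  have h5 : (N : ℝ) < p := by
    have : N < p := by omega
    exact_mod_cast this
  have h6 : (r k m : ℝ) * sX / (2 * δ) < p := hN.trans h5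
  rw [div_lt_iff₀ (by positivity)] at h6
  rw [le_div_iff₀ (by positivity)] at h4
  linarith

end H24.SF
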