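import Pool.Agent.H24.Lib.R_seed8.H617R3.AP.Defs
set_option autoImplicit false

/-! Sets with few progressions and no large progression-free subsets. -/

namespace H24.SF

open Finset Pool.Agent.H617R3.AP

/-- sets which are unions of translates of intervals of length `m` -/
theorem blocks_le {k : ℕ} (hk : 3 ≤ k) {m n : ℕ} (hm : 1 ≤ m) (hmn : m ≤ n) (t : ℕ → ℤ)
    (A : Finset ℤ) (hA : ∀ x ∈ A, ∃ u < n, x = t (u / m) + (u % m : ℕ))
    (hAP : ∀ a d : ℤ, 0 < d → d < m → ¬ ∀ i < k, a + (i : ℕ) • d ∈ A) :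
    A.card * m ≤ 2 * n * r k m := by
  classical
  set U := (range n).filter fun u => t (u / m) + (u % m : ℕ) ∈ A with hU
  have h1 : A.card ≤ U.card := by
    have : A ⊆ U.image fun u => t (u / m) + (u % m : ℕ) := by
      intro x hx
      obtain ⟨u, hu, hux⟩ := hA x hx
      rw [Finset.mem_image]
      refine ⟨u, Finset.mem_filter.2 ⟨Finset.mem_range.2 hu, ?_⟩, hux.symm⟩
      rw [← hux]; exact hx
    exact (Finset.card_le_card this).trans Finset.card_image_le
  have h2 : U.card ≤ r k m * (U.image fun u => u / m).card := by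
    refine Finset.card_le_mul_card_image U (r k m) fun j _ => ?_
    set V := U.filter fun u => u / m = j with hV
    have hVm : ∀ u ∈ V, u / m = j ∧ t j + (u % m : ℕ) ∈ A := by
      intro u hu
      obtain ⟨hu1, hu2⟩ := Finset.mem_filter.1 hu
      have hu3 := (Finset.mem_filter.1 hu1).2
      rw [hu2] at hu3
      exact ⟨hu2, hu3⟩
    have h3 : (V.image fun u => u % m + 1).card = V.card := by
      refine Finset.card_image_of_injOn ?_
      intro u hu v hv huv
      have a1 := (hVm u (Finset.mem_coe.1 hu)).1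
      have a2 := (hVm v (Finset.mem_coe.1 hv)).1
      simp only at huv
      have e1 := Nat.div_add_mod u m
      have e2 := Nat.div_add_mod v m
      rw [a1] at e1
      rw [a2] at e2
      omega
    rw [← h3]
    refine card_le_r ?_ ?_
    · intro b hb
      obtain ⟨u, -, rfl⟩ := Finset.mem_image.1 hb
      rw [Finset.mem_Icc]
      have := Nat.mod_lt u (show 0 < m by omega)
      omega
    · intro a d hd h
      have hb : ∀ i < k, 1 ≤ a + i * d ∧ a + i * d ≤ m ∧ t j + ((a + i * d : ℕ) : ℤ) - 1 ∈ A := by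
        intro i hi
        obtain ⟨u, hu, hu'⟩ := Finset.mem_image.1 (h i hi)
        have h4 := Nat.mod_lt u (show 0 < m by omega)
        have h5 := (hVm u hu).2
        refine ⟨by omega, by omega, ?_⟩
        rw [← hu']
        have e : t j + ((u % m + 1 : ℕ) : ℤ) - 1 = t j + (u % m : ℕ) := by push_cast; ring
        rw [e]; exact h5
      refine hAP (t j + a - 1) d (by exact_mod_cast hd) ?_ ?_
      · have b1 := (hb 1 (by omega)).2.1
        have b0 := (hb 0 (by omega)).1
        omega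
      · intro i hi
        have := (hb i hi).2.2
        have e : t j + (a : ℤ) - 1 + (i : ℕ) • (d : ℤ) = t j + ((a + i * d : ℕ) : ℤ) - 1 := by
          rw [nsmul_eq_mul]; push_cast; ring
        rw [e]; exact this
  have h3 : (U.image fun u => u / m).card ≤ n / m + 1 := by
    rw [← Finset.card_range (n / m + 1)]
    refine Finset.card_le_card fun j hj => ?_
    obtain ⟨u, hu, rfl⟩ := Finset.mem_image.1 hj
    have hu1 := Finset.mem_range.1 (Finset.mem_filter.1 hu).1
    rw [Finset.mem_range]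
    exact Nat.lt_succ_of_le (Nat.div_le_div_right hu1.le)
  have h4 : (n / m + 1) * m ≤ 2 * n := by
    have := Nat.div_mul_le_self n m
    rw [Nat.add_mul, one_mul]
    omega
  calc A.card * m ≤ (r k m * (n / m + 1)) * m :=
        Nat.mul_le_mul_right _ ((h1.trans h2).trans (Nat.mul_le_mul_left _ h3))
    _ = r k m * ((n / m + 1) * m) := by ring
    _ ≤ r k m * (2 * n) := Nat.mul_le_mul_left _ h4
    _ = 2 * n * r k m := by ring

theorem pow_facts (m : ℕ) {i j : ℕ} (h : i < j) : 4 * (m * 4 ^ i) ≤ m * 4 ^ j := by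
  obtain ⟨c, rfl⟩ : ∃ c, j = i + 1 + c := ⟨j - i - 1, by omega⟩
  have : 4 ^ (i + 1 + c) = 4 * 4 ^ i * 4 ^ c := by rw [pow_add, pow_succ]; ring
  rw [this]
  have h1 : 1 ≤ 4 ^ c := Nat.one_le_pow _ _ (by norm_num)
  calc 4 * (m * 4 ^ i) = (m * (4 * 4 ^ i)) * 1 := by ring
    _ ≤ (m * (4 * 4 ^ i)) * 4 ^ c := Nat.mul_le_mul_left _ h1
    _ = m * (4 * 4 ^ i * 4 ^ c) := by ring

/-- three terms in progression in the set -/
theorem three_terms {m u v w : ℕ} (hm : 1 ≤ m) {d : ℤ} (hd : 0 < d)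
    (h1 : ((m * 4 ^ (u / m) : ℕ) : ℤ) + (u % m : ℕ) + d = ((m * 4 ^ (v / m) : ℕ) : ℤ) + (v % m : ℕ))
    (h2 : ((m * 4 ^ (v / m) : ℕ) : ℤ) + (v % m : ℕ) + d = ((m * 4 ^ (w / m) : ℕ) : ℤ) + (w % m : ℕ)) :
    d < m := by
  have hu := Nat.mod_lt u (show 0 < m by omega)
  have hv := Nat.mod_lt v (show 0 < m by omega)
  have hw := Nat.mod_lt w (show 0 < m by omega)
  have hU : m ≤ m * 4 ^ (u / m) := Nat.le_mul_of_pos_right _ (by positivity)
  have hV : m ≤ m * 4 ^ (v / m) := Nat.le_mul_of_pos_right _ (by positivity)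
  have hW : m ≤ m * 4 ^ (w / m) := Nat.le_mul_of_pos_right _ (by positivity)
  have huv : u / m ≤ v / m := by
    by_contra hcon
    push Not at hcon
    have := pow_facts m hcon
    omega
  have hvw : v / m ≤ w / m := by
    by_contra hcon
    push Not at hcon
    have := pow_facts m hcon
    omega
  rcases hvw.lt_or_eq with h3 | h3
  · exfalso
    have := pow_facts m h3
    have h4 : m * 4 ^ (u / m) ≤ m * 4 ^ (v / m) :=
      Nat.mul_le_mul_left _ (Nat.pow_le_pow_right (by norm_num) huv)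
    omega
  · rw [← h3] at h2
    omega

/-- **Sharpness.** -/
theorem sharp {k : ℕ} (hk : 3 ≤ k) {m n : ℕ} (hm : 1 ≤ m) (hmn : m ≤ n) :
    ∃ (X : Finset ℤ) (P : Finset (ℤ × ℤ)), X.card = n ∧
      (∀ a d : ℤ, (a, d) ∈ P ↔ 0 < d ∧ ∀ i < k, a + (i : ℕ) • d ∈ X) ∧ P.card ≤ m * n ∧
      ∀ A ⊆ X, (∀ q ∈ P, ¬ ∀ i < k, q.1 + (i : ℕ) • q.2 ∈ A) → A.card * m ≤ 2 * n * r k m := by
  classical
  set e : ℕ → ℤ := fun u => ((m * 4 ^ (u / m) : ℕ) : ℤ) + (u % m : ℕ) with he
  have hinj : Function.Injective e := by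
    intro u v huv
    simp only [he] at huv
    have hu := Nat.mod_lt u (show 0 < m by omega)
    have hv := Nat.mod_lt v (show 0 < m by omega)
    have hU : m ≤ m * 4 ^ (u / m) := Nat.le_mul_of_pos_right _ (by positivity)
    have hV : m ≤ m * 4 ^ (v / m) := Nat.le_mul_of_pos_right _ (by positivity)
    have huv2 : u / m = v / m := by
      rcases lt_trichotomy (u / m) (v / m) with h | h | h
      · have := pow_facts m h
        omega
      · exact h
      · have := pow_facts m h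
        omega
    have e1 := Nat.div_add_mod u m
    have e2 := Nat.div_add_mod v m
    rw [huv2] at huv e1
    omega
  set X := (range n).image e with hX
  set P := (X ×ˢ Ioo (0 : ℤ) (m : ℤ)).filter fun q => ∀ i < k, q.1 + (i : ℕ) • q.2 ∈ X with hP
  have hXc : X.card = n := by
    rw [hX, Finset.card_image_of_injective _ hinj, Finset.card_range]
  have hPm : ∀ a d : ℤ, (a, d) ∈ P ↔ 0 < d ∧ ∀ i < k, a + (i : ℕ) • d ∈ X := by
    intro a d
    rw [hP, Finset.mem_filter, Finset.mem_product, Finset.mem_Ioo]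
    constructor
    · rintro ⟨⟨-, h1, -⟩, h2⟩
      exact ⟨h1, h2⟩
    · rintro ⟨h1, h2⟩
      have a0 := h2 0 (by omega)
      have a1 := h2 1 (by omega)
      have a2 := h2 2 (by omega)
      simp only [zero_smul, add_zero] at a0
      refine ⟨⟨a0, h1, ?_⟩, h2⟩
      obtain ⟨u, -, hu⟩ := Finset.mem_image.1 a0
      obtain ⟨v, -, hv⟩ := Finset.mem_image.1 a1
      obtain ⟨w, -, hw⟩ := Finset.mem_image.1 a2
      simp only [he] at hu hv hw
      refine three_terms (u := u) (v := v) (w := w) hm h1 ?_ ?_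
      · rw [hu, hv, one_smul]
      · rw [hv, hw, one_smul, two_smul]; ring
  refine ⟨X, P, hXc, hPm, ?_, ?_⟩
  · refine (Finset.card_filter_le _ _).trans ?_
    rw [Finset.card_product, hXc, Int.card_Ioo]
    have : ((m : ℤ) - 0 - 1).toNat ≤ m := by omega
    calc n * ((m : ℤ) - 0 - 1).toNat ≤ n * m := Nat.mul_le_mul_left _ this
      _ = m * n := mul_comm _ _
  · intro A hA hAP
    refine blocks_le hk hm hmn (fun j => ((m * 4 ^ j : ℕ) : ℤ)) A ?_ ?_
    · intro x hx
      obtain ⟨u, hu, hu'⟩ := Finset.mem_image.1 (hA hx)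
      exact ⟨u, Finset.mem_range.1 hu, hu'.symm⟩
    · intro a d hd _ h
      exact hAP (a, d) ((hPm a d).2 ⟨hd, fun i hi => hA (h i hi)⟩) h

/-- **Sharpness for differences.** -/
theorem sharp_diff {k : ℕ} (hk : 3 ≤ k) {m n : ℕ} (hm : 1 ≤ m) (hmn : m ≤ n) (A : Finset ℤ)
    (hA : A ⊆ Icc (1 : ℤ) n)
    (hAP : ∀ a d : ℤ, 1 ≤ d → d ≤ m → ¬ ∀ i < k, a + (i : ℕ) • d ∈ A) :
    A.card * m ≤ 2 * n * r k m := by
  refine blocks_le hk hm hmn (fun j => ((m * j : ℕ) : ℤ) + 1) A ?_ ?_
  · intro x hx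
    have h1 := Finset.mem_Icc.1 (hA hx)
    refine ⟨(x - 1).toNat, by omega, ?_⟩
    have h2 := Nat.div_add_mod (x - 1).toNat m
    have h3 : (((m * ((x - 1).toNat / m) + (x - 1).toNat % m : ℕ)) : ℤ) = x - 1 := by
      rw [h2]; omega
    push_cast at h3 ⊢
    linarith
  · intro a d hd hdm h
    exact hAP a d (by omega) (by omega) h

end H24.SF
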